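import Pool.Agent.Lib.MP_0d518c_an.AK6

/-!
# A separable Banach space with exactly countably many closed operator ideals

For `𝕜 = ℝ` and for `𝕜 = ℂ` there is a separable Banach space `X` over `𝕜` such that the set of
closed two-sided ideals of the algebra `L(X)` of bounded operators has cardinality `ℵ₀`.  The
closed ideals are exactly `{0} < K(X) < ... < I_2 < I_1 < I_0 = L(X)`.
-/

namespace Pool.Agent.Results.MP_0d518c_an.SeparableLattice

open Pool.Agent.MP0d518c

theorem result (𝕜 : Type) [RCLike 𝕜] :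
    ∃ (X : Type) (_ : NormedAddCommGroup X) (_ : NormedSpace 𝕜 X) (S : X →L[𝕜] X),
      CompleteSpace X ∧ TopologicalSpace.SeparableSpace X ∧
      Cardinal.mk {I : TwoSidedIdeal (X →L[𝕜] X) // IsClosed {V : X →L[𝕜] X | V ∈ I}} =
        Cardinal.aleph0 ∧
      FDD 𝕜 X ∧ SeriesMod 𝕜 {V : X →L[𝕜] X | IsCompactOperator V} S ∧
      ChainOfClosedIdeals 𝕜 {V : X →L[𝕜] X | IsCompactOperator V} S :=
  lattice_theoremK 𝕜

end Pool.Agent.Results.MP_0d518c_an.SeparableLattice
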